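import Mathlib

/-!
# The arithmetic of the example
-/

namespace Q41.LP

lemma perm (t0 t1 t2 t3 : ℝ)
    (h : ∀ x : ℝ, (x - t0) * (x - t1) * (x - t2) * (x - t3)
      = (x - 129 / 8) * (x - 9 / 2) * (x - 3) * (x - 33 / 4))
    (hr : t0 - t3 = 21 / 4 * (t1 - t2)) :
    (t0 = 129 / 8 ∧ t1 = 9 / 2 ∧ t2 = 3 ∧ t3 = 33 / 4) ∨
      (t0 = 33 / 4 ∧ t1 = 3 ∧ t2 = 9 / 2 ∧ t3 = 129 / 8) := by
  have h1 := h (129 / 8)
  have h2 := h (9 / 2)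
  have h3 := h 3
  have h4 := h (33 / 4)
  rw [sub_self, zero_mul, zero_mul, zero_mul, mul_eq_zero, mul_eq_zero, mul_eq_zero] at h1
  rw [sub_self, mul_zero, zero_mul, zero_mul, mul_eq_zero, mul_eq_zero, mul_eq_zero] at h2
  rw [sub_self, mul_zero, zero_mul, mul_eq_zero, mul_eq_zero, mul_eq_zero] at h3
  rw [sub_self, mul_zero, mul_eq_zero, mul_eq_zero, mul_eq_zero] at h4
  rcases h1 with ((h1 | h1) | h1) | h1 <;> rcases h2 with ((h2 | h2) | h2) | h2 <;>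
    first
    | (exfalso; linarith)
    | (rcases h3 with ((h3 | h3) | h3) | h3 <;>
        first
        | (exfalso; linarith)
        | (rcases h4 with ((h4 | h4) | h4) | h4 <;>
          first
          | (exfalso; linarith)
          | (left; refine ⟨?_, ?_, ?_, ?_⟩ <;> linarith)
          | (right; refine ⟨?_, ?_, ?_, ?_⟩ <;> linarith)))

lemma coeffs (c a1 a2 : ℝ)
    (h : ∀ x : ℝ, (x - (c + a1 / 8 + 8 * a2)) * (x - (c + a1 / 2 + 2 * a2)) *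
      (x - (c + 2 * a1 + a2 / 2)) * (x - (c + 8 * a1 + a2 / 8))
      = (x - 129 / 8) * (x - 9 / 2) * (x - 3) * (x - 33 / 4)) :
    c = 0 ∧ ((a1 = 1 ∧ a2 = 2) ∨ (a1 = 2 ∧ a2 = 1)) := by
  rcases perm _ _ _ _ h (by ring) with ⟨h1, h2, h3, h4⟩ | ⟨h1, h2, h3, h4⟩
  · exact ⟨by linarith, Or.inl ⟨by linarith, by linarith⟩⟩
  · exact ⟨by linarith, Or.inr ⟨by linarith, by linarith⟩⟩

lemma contra (a1 a2 a3 b1 b2 b3 : ℝ) (ha : (a1 = 1 ∧ a2 = 2) ∨ (a1 = 2 ∧ a2 = 1))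
    (hb : (b2 = 1 ∧ b1 = 2) ∨ (b2 = 2 ∧ b1 = 1))
    (h1 : (a1 / 8 + 8 * a2) * (8 * b1 + b2 / 8) + (a1 / 2 + 2 * a2) * (2 * b1 + b2 / 2)
      + (2 * a1 + a2 / 2) * (b1 / 2 + 2 * b2) + (8 * a1 + a2 / 8) * (b1 / 8 + 8 * b2)
      - (189 / 8 * (a3 + a1 / 2)) * (b3 / 2 + b2 / 4)
      - (225 / 32 * (a3 + 2 * a1)) * (b3 / 2 + b2)
      - (189 / 128 * (a3 + 8 * a1)) * (b3 / 2 + 4 * b2) = 36)
    (h2 : (a1 / 8 + 8 * a2) ^ 2 * (8 * b1 + b2 / 8) + (a1 / 2 + 2 * a2) ^ 2 * (2 * b1 + b2 / 2)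
      + (2 * a1 + a2 / 2) ^ 2 * (b1 / 2 + 2 * b2) + (8 * a1 + a2 / 8) ^ 2 * (b1 / 8 + 8 * b2)
      - ((a1 / 8 + 8 * a2) + (a1 / 2 + 2 * a2)) * (189 / 8 * (a3 + a1 / 2)) * (b3 / 2 + b2 / 4)
      - ((a1 / 2 + 2 * a2) + (2 * a1 + a2 / 2)) * (225 / 32 * (a3 + 2 * a1)) * (b3 / 2 + b2)
      - ((2 * a1 + a2 / 2) + (8 * a1 + a2 / 8)) * (189 / 128 * (a3 + 8 * a1)) * (b3 / 2 + 4 * b2)
      = -4455 / 16) : False := by
  rcases ha with ⟨rfl, rfl⟩ | ⟨rfl, rfl⟩ <;> rcases hb with ⟨rfl, rfl⟩ | ⟨rfl, rfl⟩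
  · have hT : a3 + b3 = 0 := by linarith
    have hS : a3 * b3 = 16 := by linarith
    nlinarith [sq_nonneg (a3 - b3)]
  · have hT : 2 * a3 + b3 = 0 := by linarith
    have hS : a3 * b3 = 8 := by linarith
    nlinarith [sq_nonneg (2 * a3 - b3)]
  · have hT : a3 + 2 * b3 = 0 := by linarith
    have hS : a3 * b3 = 8 := by linarith
    nlinarith [sq_nonneg (a3 - 2 * b3)]
  · have hT : 2 * a3 + 2 * b3 = 0 := by linarith
    have hS : a3 * b3 = 4 := by linarith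
    nlinarith [sq_nonneg (a3 - b3)]

end Q41.LP
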