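import Mathlib

/-!
# Irreducible four dimensional modules for the equitable relations, `q = 2`
-/

open Module

namespace Q41.LP

variable {V : Type*} [AddCommGroup V] [Module ℝ V]

lemma pow_inj : Function.Injective (fun k : ℕ => (1 / 4 : ℝ) ^ k) := by
  intro a b h
  have h1 : StrictAnti (fun k : ℕ => (1 / 4 : ℝ) ^ k) :=
    strictAnti_nat_of_succ_lt fun k => by
      rw [pow_succ]
      have : (0 : ℝ) < (1 / 4) ^ k := by positivity
      linarith
  exact h1.injective h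

/-- An operator which `q`-commutes with an invertible one is nilpotent. -/
theorem nilp [FiniteDimensional ℝ V] (X Xi n : End ℝ V) (h2 : X * Xi = 1)
    (h : X * n = (1 / 4 : ℝ) • (n * X)) : ∃ k, n ^ k = 0 := by
  by_contra hcon
  push Not at hcon
  let T : End ℝ (End ℝ V) := (LinearMap.mulLeft ℝ X) * (LinearMap.mulRight ℝ Xi)
  have hX : ∀ k : ℕ, X * n ^ k = ((1 / 4 : ℝ) ^ k) • (n ^ k * X) := by
    intro k
    induction k with
    | zero => simp
    | succ k ih =>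
      rw [pow_succ n k, ← mul_assoc, ih, smul_mul_assoc, mul_assoc (n ^ k) X n, h,
        mul_smul_comm, smul_smul, pow_succ, mul_assoc (n ^ k) n X]
  have hT : ∀ k : ℕ, T (n ^ k) = ((1 / 4 : ℝ) ^ k) • n ^ k := by
    intro k
    show X * (n ^ k * Xi) = _
    rw [← mul_assoc, hX, smul_mul_assoc, mul_assoc, h2, mul_one]
  have hli := Module.End.eigenvectors_linearIndependent' T (fun k : ℕ => (1 / 4 : ℝ) ^ k)
    pow_inj (fun k => n ^ k) (fun k => ⟨Module.End.mem_eigenspace_iff.2 (hT k), hcon k⟩)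
  exact Module.Finite.not_linearIndependent_of_infinite _ hli

/-- The equitable relations with `q = 2`. -/
structure Tri (X Xi Y Z : End ℝ V) : Prop where
  h1 : ∀ v, X (Xi v) = v
  h2 : ∀ v, Xi (X v) = v
  xy : ∀ v, (2 : ℝ) • X (Y v) - (1 / 2 : ℝ) • Y (X v) = (3 / 2 : ℝ) • v
  yz : ∀ v, (2 : ℝ) • Y (Z v) - (1 / 2 : ℝ) • Z (Y v) = (3 / 2 : ℝ) • v
  zx : ∀ v, (2 : ℝ) • Z (X v) - (1 / 2 : ℝ) • X (Z v) = (3 / 2 : ℝ) • v

/-- The raising and lowering operators. -/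
structure NM (X Xi Y Z n m : End ℝ V) : Prop where
  n1 : ∀ v, X (Y v) = v - (1 / 2 : ℝ) • n v
  n2 : ∀ v, Y (X v) = v - (2 : ℝ) • n v
  m1 : ∀ v, Y (Z v) = v - (1 / 2 : ℝ) • m v
  m2 : ∀ v, Z (Y v) = v - (2 : ℝ) • m v
  yn : ∀ v, Y (n v) = (4 : ℝ) • n (Y v)
  ym : ∀ v, Y (m v) = (1 / 4 : ℝ) • m (Y v)
  xn : ∀ v, X (n v) = (1 / 4 : ℝ) • n (X v)
  nm : ∀ v, n (m v) = (1 / 4 : ℝ) • m (n v) + (3 / 4 : ℝ) • (v - Y (Y v))

theorem exists_nm (X Xi Y Z : End ℝ V) (h : Tri X Xi Y Z) : ∃ n m, NM X Xi Y Z n m := by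
  let n : End ℝ V := (2 : ℝ) • (1 - X * Y)
  let m : End ℝ V := (2 : ℝ) • (1 - Y * Z)
  have hn : ∀ v, n v = (2 : ℝ) • (v - X (Y v)) := fun v => rfl
  have hm : ∀ v, m v = (2 : ℝ) • (v - Y (Z v)) := fun v => rfl
  have n1 : ∀ v, X (Y v) = v - (1 / 2 : ℝ) • n v := by
    intro v
    rw [hn]
    module
  have n2 : ∀ v, Y (X v) = v - (2 : ℝ) • n v := by
    intro v
    rw [hn]
    have h1 : (1 / 2 : ℝ) • Y (X v) = (2 : ℝ) • X (Y v) - (3 / 2 : ℝ) • v := by
      rw [← h.xy v]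
      module
    have h2 : Y (X v) = (2 : ℝ) • ((1 / 2 : ℝ) • Y (X v)) := by module
    rw [h2, h1]
    module
  have m1 : ∀ v, Y (Z v) = v - (1 / 2 : ℝ) • m v := by
    intro v
    rw [hm]
    module
  have m2 : ∀ v, Z (Y v) = v - (2 : ℝ) • m v := by
    intro v
    rw [hm]
    have h1 : (1 / 2 : ℝ) • Z (Y v) = (2 : ℝ) • Y (Z v) - (3 / 2 : ℝ) • v := by
      rw [← h.yz v]
      module
    have h2 : Z (Y v) = (2 : ℝ) • ((1 / 2 : ℝ) • Z (Y v)) := by module
    rw [h2, h1]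
    module
  refine ⟨n, m, n1, n2, m1, m2, ?_, ?_, ?_, ?_⟩
  · intro v
    have e1 := n2 (Y v)
    rw [n1 v, map_sub, map_smul] at e1
    have : (2 : ℝ) • n (Y v) = (1 / 2 : ℝ) • Y (n v) := by
      have e2 : (2 : ℝ) • n (Y v) = Y v - (Y v - (2 : ℝ) • n (Y v)) := by module
      rw [e2, ← e1]
      module
    have e3 : Y (n v) = (2 : ℝ) • ((1 / 2 : ℝ) • Y (n v)) := by module
    rw [e3, ← this]
    module
  · intro v
    have e1 := m1 (Y v)
    rw [m2 v, map_sub, map_smul] at e1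
    have : (2 : ℝ) • Y (m v) = (1 / 2 : ℝ) • m (Y v) := by
      have e2 : (2 : ℝ) • Y (m v) = Y v - (Y v - (2 : ℝ) • Y (m v)) := by module
      rw [e2, e1]
      module
    have e3 : Y (m v) = (1 / 2 : ℝ) • ((2 : ℝ) • Y (m v)) := by module
    rw [e3, this]
    module
  · intro v
    have e1 := n1 (X v)
    rw [n2 v, map_sub, map_smul] at e1
    have : (2 : ℝ) • X (n v) = (1 / 2 : ℝ) • n (X v) := by
      have e2 : (2 : ℝ) • X (n v) = X v - (X v - (2 : ℝ) • X (n v)) := by module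
      rw [e2, e1]
      module
    have e3 : X (n v) = (1 / 2 : ℝ) • ((2 : ℝ) • X (n v)) := by module
    rw [e3, this]
    module
  · intro v
    have e1 := congrArg Y (h.zx (Y v))
    simp only [map_sub, map_smul, n1, m2, m1, n2] at e1
    have e2 : (2 : ℝ) • n (m v) = (1 / 2 : ℝ) • m (n v) + (3 / 2 : ℝ) • (v - Y (Y v)) := by
      have e3 : (3 / 2 : ℝ) • (v - Y (Y v)) = (3 / 2 : ℝ) • v - (3 / 2 : ℝ) • Y (Y v) := by module
      rw [e3, ← e1]
      module
    have e4 : n (m v) = (1 / 2 : ℝ) • ((2 : ℝ) • n (m v)) := by module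
    rw [e4, e2]
    module

section Main

variable {X Xi Y Z n m : End ℝ V}

lemma NM.ypow (h : NM X Xi Y Z n m) (k : ℕ) (v : V) :
    Y ((m ^ k) v) = ((1 / 4 : ℝ) ^ k) • (m ^ k) (Y v) := by
  induction k generalizing v with
  | zero => simp
  | succ k ih =>
    rw [pow_succ', Module.End.mul_apply, Module.End.mul_apply, h.ym, ih, map_smul, smul_smul,
      pow_succ']

lemma NM.npow (h : NM X Xi Y Z n m) (v : V) (hv : n v = 0) (k : ℕ) :
    n ((m ^ (k + 1)) v) = (1 - (1 / 4 : ℝ) ^ (k + 1)) •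
      (m ^ k) (v - ((1 / 4 : ℝ) ^ k) • Y (Y v)) := by
  induction k with
  | zero =>
    rw [zero_add, pow_one, pow_one, pow_zero, pow_zero, h.nm, hv, map_zero]
    simp only [Module.End.one_apply]
    module
  | succ k ih =>
    rw [pow_succ' m (k + 1), Module.End.mul_apply, h.nm, ih, h.ypow, map_smul Y, h.ypow,
      map_smul m, ← Module.End.mul_apply m, ← pow_succ']
    simp only [map_sub, map_smul]
    have e : ∀ (a b : V) (t : ℝ), (1 / 4 : ℝ) • (1 - t * (1 / 4)) • (a - t • b)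
        + (3 / 4 : ℝ) • (a - (t * (1 / 4)) • (t * (1 / 4)) • b)
        = (1 - t * (1 / 4) * (1 / 4)) • (a - (t * (1 / 4)) • b) := by
      intro a b t
      have h1 : (1 / 4 : ℝ) • (1 - t * (1 / 4)) • (a - t • b)
          + (3 / 4 : ℝ) • (a - (t * (1 / 4)) • (t * (1 / 4)) • b)
          = ((1 / 4) * (1 - t * (1 / 4)) + 3 / 4) • a
            - ((1 / 4) * (1 - t * (1 / 4)) * t + (3 / 4) * (t * (1 / 4)) * (t * (1 / 4))) • b := by
        module
      have h2 : (1 - t * (1 / 4) * (1 / 4)) • (a - (t * (1 / 4)) • b)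
          = (1 - t * (1 / 4) * (1 / 4)) • a
            - ((1 - t * (1 / 4) * (1 / 4)) * (t * (1 / 4))) • b := by
        module
      rw [h1, h2]
      congr 2 <;> ring
    simp only [pow_succ (1 / 4 : ℝ)]
    exact e _ _ _

/-- `Y` is injective. -/
lemma NM.yinj [FiniteDimensional ℝ V] (h : NM X Xi Y Z n m) (hT : Tri X Xi Y Z) :
    Function.Injective Y := by
  obtain ⟨k, hk⟩ := nilp X Xi n (LinearMap.ext hT.h1)
    (LinearMap.ext fun v => by
      simp only [Module.End.mul_apply, LinearMap.smul_apply]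
      exact h.xn v)
  rw [injective_iff_map_eq_zero]
  intro v hv
  have h1 : n v = (2 : ℝ) • v := by
    have := h.n1 v
    rw [hv, map_zero] at this
    have h2 : n v = (2 : ℝ) • ((1 / 2 : ℝ) • n v) := by module
    rw [h2, ← sub_eq_zero.1 this.symm]
  have h2 : ∀ j : ℕ, (n ^ j) v = ((2 : ℝ) ^ j) • v := by
    intro j
    induction j with
    | zero => simp
    | succ j ih =>
      rw [pow_succ', Module.End.mul_apply, ih, map_smul, h1, smul_smul, pow_succ]
  have h3 := h2 k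
  rw [hk, LinearMap.zero_apply] at h3
  have h4 : ((2 : ℝ) ^ k) ≠ 0 := by positivity
  exact (smul_eq_zero.1 h3.symm).resolve_left h4

lemma NM.mnil [FiniteDimensional ℝ V] (h : NM X Xi Y Z n m) (hY : Function.Injective Y) :
    ∃ k, m ^ k = 0 := by
  let e : V ≃ₗ[ℝ] V := LinearEquiv.ofInjectiveEndo Y hY
  refine nilp Y (e.symm : V →ₗ[ℝ] V) m (LinearMap.ext fun v => ?_) (LinearMap.ext fun v => ?_)
  · exact e.apply_symm_apply v
  · simp only [Module.End.mul_apply, LinearMap.smul_apply]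
    exact h.ym v

/-- The lowest weight vector. -/
lemma NM.lowest [FiniteDimensional ℝ V] [Nontrivial V] (h : NM X Xi Y Z n m)
    (hT : Tri X Xi Y Z) :
    ∃ (N : ℕ) (e : ℝ) (v : V), 0 < N ∧ (e = 1 ∨ e = -1) ∧ n v = 0 ∧ (m ^ N) v = 0 ∧
      Y v = (e * 2 ^ (N - 1)) • v ∧ ∀ i < N, (m ^ i) v ≠ 0 := by
  classical
  have hY := h.yinj hT
  obtain ⟨K, hK⟩ := h.mnil hY
  -- kernel of `n`
  obtain ⟨k, hk⟩ := nilp X Xi n (LinearMap.ext hT.h1)
    (LinearMap.ext fun v => by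
      simp only [Module.End.mul_apply, LinearMap.smul_apply]
      exact h.xn v)
  have hker : ∃ v : V, v ≠ 0 ∧ n v = 0 := by
    by_contra hcon
    push Not at hcon
    obtain ⟨w, hw⟩ := exists_ne (0 : V)
    have : ∀ j : ℕ, (n ^ j) w ≠ 0 := by
      intro j
      induction j with
      | zero => simpa using hw
      | succ j ih =>
        rw [pow_succ', Module.End.mul_apply]
        exact hcon _ ih
    apply this k
    rw [hk, LinearMap.zero_apply]
  have hex : ∃ N : ℕ, ∃ v : V, v ≠ 0 ∧ n v = 0 ∧ (m ^ N) v = 0 := by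
    obtain ⟨v, hv, hv'⟩ := hker
    exact ⟨K, v, hv, hv', by rw [hK, LinearMap.zero_apply]⟩
  obtain ⟨v, hv0, hnv, hmv⟩ := Nat.find_spec hex
  have hmin : ∀ i < Nat.find hex, ∀ v : V, v ≠ 0 → n v = 0 → (m ^ i) v ≠ 0 := by
    intro i hi v h1 h2 h3
    exact Nat.find_min hex hi ⟨v, h1, h2, h3⟩
  have hNpos : 0 < Nat.find hex := by
    rw [Nat.pos_iff_ne_zero]
    intro h0
    rw [h0, pow_zero, Module.End.one_apply] at hmv
    exact hv0 hmv
  generalize Nat.find hex = N at hmv hmin hNpos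
  obtain ⟨N, rfl⟩ : ∃ M, N = M + 1 := ⟨N - 1, by omega⟩
  -- `Y^2 v = 4^N v`
  have h1 : (m ^ N) (v - ((1 / 4 : ℝ) ^ N) • Y (Y v)) = 0 := by
    have := h.npow v hnv N
    rw [hmv, map_zero] at this
    have h2 : (1 - (1 / 4 : ℝ) ^ (N + 1)) ≠ 0 := by
      have : (1 / 4 : ℝ) ^ (N + 1) < 1 := pow_lt_one₀ (by norm_num) (by norm_num) (by omega)
      linarith
    exact (smul_eq_zero.1 this.symm).resolve_left h2
  have hnY : ∀ w, n w = 0 → n (Y w) = 0 := by
    intro w hw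
    have := h.yn w
    rw [hw, map_zero] at this
    exact (smul_eq_zero.1 this.symm).resolve_left (by norm_num)
  have h2 : n (v - ((1 / 4 : ℝ) ^ N) • Y (Y v)) = 0 := by
    rw [map_sub, map_smul, hnv, hnY _ (hnY _ hnv), smul_zero, sub_zero]
  have h3 : v - ((1 / 4 : ℝ) ^ N) • Y (Y v) = 0 := by
    by_contra h3
    exact hmin N (Nat.lt_succ_self _) _ h3 h2 h1
  have h4 : Y (Y v) = ((2 : ℝ) ^ N * 2 ^ N) • v := by
    have h5 : ((2 : ℝ) ^ N * 2 ^ N) • (v - ((1 / 4 : ℝ) ^ N) • Y (Y v))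
        = ((2 : ℝ) ^ N * 2 ^ N) • v - Y (Y v) := by
      rw [smul_sub, smul_smul, ← mul_pow, ← mul_pow]
      norm_num
    rw [h3, smul_zero] at h5
    exact (sub_eq_zero.1 h5.symm).symm
  -- choose the sign
  have hfin : ∀ (e : ℝ) (w : V), (e = 1 ∨ e = -1) → w ≠ 0 → n w = 0 → (m ^ (N + 1)) w = 0 →
      Y w = (e * 2 ^ N) • w → ∃ (N : ℕ) (e : ℝ) (v : V), 0 < N ∧ (e = 1 ∨ e = -1) ∧ n v = 0 ∧
      (m ^ N) v = 0 ∧ Y v = (e * 2 ^ (N - 1)) • v ∧ ∀ i < N, (m ^ i) v ≠ 0 := by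
    intro e w he hw1 hw2 hw3 hw4
    exact ⟨N + 1, e, w, hNpos, he, hw2, hw3, by simpa using hw4, fun i hi => hmin i hi w hw1 hw2⟩
  by_cases h5 : Y v + ((2 : ℝ) ^ N) • v = 0
  · refine hfin (-1) v (Or.inr rfl) hv0 hnv hmv ?_
    rw [eq_neg_of_add_eq_zero_left h5]
    module
  · refine hfin 1 (Y v + ((2 : ℝ) ^ N) • v) (Or.inl rfl) h5 ?_ ?_ ?_
    · rw [map_add, map_smul, hnY v hnv, hnv, smul_zero, add_zero]
    · have h6 := h.ypow (N + 1) v
      rw [hmv, map_zero] at h6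
      have h7 : ((1 / 4 : ℝ) ^ (N + 1)) ≠ 0 := by positivity
      rw [map_add, map_smul, hmv, smul_zero, add_zero]
      exact (smul_eq_zero.1 h6.symm).resolve_left h7
    · rw [map_add, map_smul, h4]
      module

/-- The shape of an irreducible module of dimension 4. -/
theorem NM.basis [FiniteDimensional ℝ V] (h : NM X Xi Y Z n m) (hT : Tri X Xi Y Z)
    (hdim : Module.finrank ℝ V = 4)
    (irr : ∀ W : Submodule ℝ V, (∀ w ∈ W, X w ∈ W ∧ Xi w ∈ W ∧ Y w ∈ W ∧ Z w ∈ W) →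
      W = ⊥ ∨ W = ⊤) :
    ∃ (e : ℝ) (b : Basis (Fin 4) ℝ V), (e = 1 ∨ e = -1) ∧
      (∀ i : Fin 4, Y (b i) = (e * 8 * (1 / 4) ^ (i : ℕ)) • b i) ∧
      (m (b 0) = b 1 ∧ m (b 1) = b 2 ∧ m (b 2) = b 3 ∧ m (b 3) = 0) ∧
      (n (b 0) = 0 ∧ n (b 1) = (-189 / 4 : ℝ) • b 0 ∧ n (b 2) = (-225 / 16 : ℝ) • b 1 ∧
        n (b 3) = (-189 / 64 : ℝ) • b 2) := by
  have : Nontrivial V := Module.nontrivial_of_finrank_pos (R := ℝ) (by omega)
  obtain ⟨N, e, v, hN, he, hnv, hmv, hYv, hne⟩ := h.lowest hT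
  have hee : e * e = 1 := by rcases he with rfl | rfl <;> norm_num
  have he0 : e ≠ 0 := by rcases he with rfl | rfl <;> norm_num
  set u : ℕ → V := fun i => (m ^ i) v with hu
  set lam : ℕ → ℝ := fun i => (1 / 4 : ℝ) ^ i * (e * 2 ^ (N - 1)) with hlam
  have hlam0 : ∀ i, lam i ≠ 0 := by
    intro i
    rw [hlam]
    have : (1 / 4 : ℝ) ^ i ≠ 0 := by positivity
    have : (2 : ℝ) ^ (N - 1) ≠ 0 := by positivity
    simp only
    positivity
  have hYu : ∀ i, Y (u i) = lam i • u i := by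
    intro i
    show Y ((m ^ i) v) = _
    rw [h.ypow, hYv, map_smul, smul_smul]
  have hmu : ∀ i, m (u i) = u (i + 1) := by
    intro i
    show m ((m ^ i) v) = (m ^ (i + 1)) v
    rw [pow_succ', Module.End.mul_apply]
  have hYY : Y (Y v) = ((4 : ℝ) ^ (N - 1)) • v := by
    rw [hYv, map_smul, hYv, smul_smul]
    congr 1
    calc e * 2 ^ (N - 1) * (e * 2 ^ (N - 1)) = (e * e) * (2 * 2) ^ (N - 1) := by
          rw [mul_pow]; ring
      _ = 4 ^ (N - 1) := by rw [hee]; norm_num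
  have hnu : ∀ i, n (u (i + 1)) = ((1 - (1 / 4 : ℝ) ^ (i + 1)) *
      (1 - (1 / 4 : ℝ) ^ i * 4 ^ (N - 1))) • u i := by
    intro i
    show n ((m ^ (i + 1)) v) = _
    rw [h.npow v hnv, hYY, smul_smul]
    have : v - ((1 / 4 : ℝ) ^ i * 4 ^ (N - 1)) • v = (1 - (1 / 4 : ℝ) ^ i * 4 ^ (N - 1)) • v := by
      module
    rw [this, map_smul, smul_smul]
  have hn0 : n (u 0) = 0 := by
    show n ((m ^ 0) v) = 0
    rw [pow_zero, Module.End.one_apply, hnv]
  have hbig : ∀ i, N ≤ i → u i = 0 := by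
    intro i hi
    obtain ⟨j, rfl⟩ := Nat.exists_eq_add_of_le hi
    show (m ^ (N + j)) v = 0
    rw [add_comm, pow_add, Module.End.mul_apply, hmv, map_zero]
  set W : Submodule ℝ V := Submodule.span ℝ (Set.range fun i : Fin N => u i) with hW
  have huW : ∀ i, u i ∈ W := by
    intro i
    by_cases hi : i < N
    · exact Submodule.subset_span ⟨⟨i, hi⟩, rfl⟩
    · rw [hbig i (by omega)]
      exact W.zero_mem
  have hnW : ∀ i, n (u i) ∈ W := by
    intro i
    rcases i with _ | i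
    · rw [hn0]
      exact W.zero_mem
    · rw [hnu]
      exact W.smul_mem _ (huW i)
  have hext : ∀ f : End ℝ V, (∀ i, f (u i) ∈ W) → ∀ w ∈ W, f w ∈ W := by
    intro f hf
    have : W ≤ W.comap f := by
      rw [hW, Submodule.span_le]
      rintro _ ⟨i, rfl⟩
      exact hf i
    exact fun w hw => this hw
  have hinvY : ∀ i, u i = Y ((lam i)⁻¹ • u i) := by
    intro i
    rw [map_smul, hYu, smul_smul, inv_mul_cancel₀ (hlam0 i), one_smul]
  have hXW : ∀ w ∈ W, X w ∈ W := by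
    refine hext X fun i => ?_
    have h1 : X (u i) = X (Y ((lam i)⁻¹ • u i)) := by rw [← hinvY]
    rw [h1, h.n1, map_smul]
    exact W.sub_mem (W.smul_mem _ (huW i)) (W.smul_mem _ (W.smul_mem _ (hnW i)))
  have hZW : ∀ w ∈ W, Z w ∈ W := by
    refine hext Z fun i => ?_
    have h1 : Z (u i) = Z (Y ((lam i)⁻¹ • u i)) := by rw [← hinvY]
    rw [h1, h.m2, map_smul, hmu]
    exact W.sub_mem (W.smul_mem _ (huW i)) (W.smul_mem _ (W.smul_mem _ (huW _)))
  have hYW : ∀ w ∈ W, Y w ∈ W := by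
    refine hext Y fun i => ?_
    rw [hYu]
    exact W.smul_mem _ (huW i)
  have hXiW : ∀ w ∈ W, Xi w ∈ W := by
    let eX : V ≃ₗ[ℝ] V := LinearEquiv.ofLinearMap X Xi (LinearMap.ext hT.h1) (LinearMap.ext hT.h2)
    have hle : W.map (eX : V →ₗ[ℝ] V) ≤ W := by
      rintro _ ⟨w, hw, rfl⟩
      exact hXW w hw
    have heq : W.map (eX : V →ₗ[ℝ] V) = W :=
      Submodule.eq_of_le_of_finrank_eq hle (LinearEquiv.finrank_map_eq eX W)
    intro w hw
    rw [← heq] at hw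
    obtain ⟨w', hw', hw2⟩ := hw
    have h1 : Xi w = w' := by
      rw [← hw2]
      exact hT.h2 w'
    rw [h1]
    exact hw'
  have hWtop : W = ⊤ := by
    rcases irr W (fun w hw => ⟨hXW w hw, hXiW w hw, hYW w hw, hZW w hw⟩) with h1 | h1
    · exfalso
      have h2 := huW 0
      rw [h1, Submodule.mem_bot] at h2
      exact hne 0 hN h2
    · exact h1
  have hli : LinearIndependent ℝ (fun i : Fin N => u i) := by
    refine Module.End.eigenvectors_linearIndependent' Y (fun i : Fin N => lam i) ?_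
      (fun i : Fin N => u i)
      (fun i => ⟨Module.End.mem_eigenspace_iff.2 (hYu i), hne i i.2⟩)
    intro i j hij
    have h2 : (2 : ℝ) ^ (N - 1) ≠ 0 := by positivity
    have h1 : (1 / 4 : ℝ) ^ (i : ℕ) = (1 / 4 : ℝ) ^ (j : ℕ) :=
      mul_right_cancel₀ (mul_ne_zero he0 h2) hij
    exact Fin.ext (pow_inj h1)
  let b : Basis (Fin N) ℝ V := Basis.mk hli (by rw [← hWtop])
  have hN4 : N = 4 := by
    have := Module.finrank_eq_card_basis b
    rw [hdim, Fintype.card_fin] at this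
    exact this.symm
  subst hN4
  have hb : ∀ i : Fin 4, b i = u i := fun i => Basis.mk_apply hli _ i
  refine ⟨e, b, he, ?_, ⟨?_, ?_, ?_, ?_⟩, ⟨?_, ?_, ?_, ?_⟩⟩
  · intro i
    rw [hb, hYu]
    congr 1
    rw [hlam]
    simp only
    norm_num
    ring
  · rw [hb, hb]; exact hmu 0
  · rw [hb, hb]; exact hmu 1
  · rw [hb, hb]; exact hmu 2
  · rw [hb]
    exact (hmu 3).trans (hbig 4 le_rfl)
  · rw [hb]; exact hn0
  · rw [hb, hb]
    refine (hnu 0).trans ?_
    norm_num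
  · rw [hb, hb]
    refine (hnu 1).trans ?_
    norm_num
  · rw [hb, hb]
    refine (hnu 2).trans ?_
    norm_num

end Main

end Q41.LP
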